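import Pool.Agent.H38.Baire.Lib

/-!
The Schreier graph of the free group on countably many generators: distinguishing number at
most three, uncountable Borel distinguishing number.
-/

namespace Pool.Agent.H38.Dist

open Set Filter Topology Pool.Agent.H38.Baire FreeGroup

abbrev F := FreeGroup ℕ

def CA (g g' : F) : Prop := ∃ n, g' = of n * g ∨ g = of n * g'

def par (g : F) : F := mk g.toWord.tail

def Ch (g g' : F) : Prop := g' ≠ 1 ∧ par g' = g

theorem ch_mul (p : ℕ × Bool) (g : F) :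
    (Ch g (mk [p] * g) ∧ ∀ hd tl, g.toWord = hd :: tl → ¬ (p.1 = hd.1 ∧ p.2 = !hd.2)) ∨
    (Ch (mk [p] * g) g ∧ ∃ hd tl, g.toWord = hd :: tl ∧ p.1 = hd.1) := by
  have e : (mk [p] * g).toWord = reduce (p :: g.toWord) := by
    conv_lhs => rw [← mk_toWord (x := g), mul_mk, toWord_mk]
    rfl
  rw [reduce.cons, reduce_toWord] at e
  have yes : (mk [p] * g).toWord = p :: g.toWord → Ch g (mk [p] * g) := fun h =>
    ⟨fun h' => by simp [h'] at h, by rw [par, h, List.tail_cons, mk_toWord]⟩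
  cases h : g.toWord with
  | nil => exact Or.inl ⟨yes (by simpa [h] using e), by simp⟩
  | cons hd tl =>
    simp only [h] at e
    split_ifs at e with hc
    · exact Or.inr ⟨⟨fun h' => by simp [h'] at h, by rw [par, h, List.tail_cons, ← e, mk_toWord]⟩,
        hd, tl, rfl, hc.1⟩
    · exact Or.inl ⟨yes (by rw [e, h]), fun hd' tl' h' => by cases h'; exact hc⟩

theorem ca_iff (g g' : F) : CA g g' ↔ Ch g g' ∨ Ch g' g := by
  have key : ∀ g g' : F, Ch g g' → CA g g' := by
    rintro g g' ⟨h1, rfl⟩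
    cases h : g'.toWord with
    | nil => exact (h1 (toWord_eq_nil_iff.1 h)).elim
    | cons hd tl =>
      have e : g' = mk [hd] * par g' := by
        rw [par, h, mul_mk, List.tail_cons, List.singleton_append, ← h, mk_toWord]
      obtain ⟨n, _ | _⟩ := hd
      · refine ⟨n, Or.inr ?_⟩
        have : mk [(n, false)] = (of n : F)⁻¹ := rfl
        rw [this] at e
        rw [eq_inv_mul_iff_mul_eq] at e
        exact e.symm
      · exact ⟨n, Or.inl e⟩
  constructor
  · rintro ⟨n, rfl | rfl⟩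
    · exact (ch_mul (n, true) g).imp And.left And.left
    · exact ((ch_mul (n, true) g').imp And.left And.left).symm
  · rintro (h | h)
    · exact key _ _ h
    · obtain ⟨n, h⟩ := key _ _ h
      exact ⟨n, h.symm⟩

theorem norm_par {g : F} (h : g ≠ 1) : (par g).norm < g.norm := by
  refine norm_mk_le.trans_lt ?_
  have : g.toWord ≠ [] := fun e => h (toWord_eq_nil_iff.1 e)
  have := List.length_pos_iff.2 this
  simp only [List.length_tail, FreeGroup.norm]; omega

theorem ch_eventually (g : F) : ∃ m, ∀ n ≥ m, Ch g (of n * g) := by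
  refine ⟨(g.toWord.headD (0, true)).1 + 1, fun n hn => ?_⟩
  rcases ch_mul (n, true) g with h | ⟨-, hd, tl, h1, h2⟩
  · exact h.1
  · simp [h1] at hn h2; omega

def AdjL {L : Type} (s t : List L) : Prop := (∃ l, t = l :: s) ∨ ∃ l, s = l :: t

/-- coordinates on the Cayley tree in which the label of a child is prescribed -/
theorem coords {L : Type} (P : F → L → Prop) (hP : ∀ g, ∃! l, P g l)
    (hinf : ∀ g l, {g' | Ch g g' ∧ P g' l}.Infinite) :
    ∃ φ : List (L × ℕ) ≃ F, (∀ s t, CA (φ s) (φ t) ↔ AdjL s t) ∧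
      ∀ l s, P (φ (l :: s)) l.1 := by
  have h : ∀ g l, Nonempty (ℕ ≃ {g' | Ch g g' ∧ P g' l}) := fun g l => by
    have := (hinf g l).to_subtype
    exact nonempty_equiv_of_countable
  let e := fun g l => (h g l).some
  let φ : List (L × ℕ) → F := fun s => s.foldr (fun l g => (e g l.1 l.2).1) 1
  have h1 : ∀ l s, Ch (φ s) (φ (l :: s)) ∧ P (φ (l :: s)) l.1 := fun l s => (e (φ s) l.1 l.2).2
  have inj : Function.Injective φ := by
    intro s
    induction s with
    | nil =>
      rintro (_ | ⟨l, t⟩) h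
      · rfl
      · exact ((h1 l t).1.1 h.symm).elim
    | cons l s ih =>
      rintro (_ | ⟨l', t⟩) h
      · exact ((h1 l s).1.1 h).elim
      · obtain rfl : s = t := ih (by rw [← (h1 l s).1.2, h, (h1 l' t).1.2])
        obtain ⟨l, n⟩ := l
        obtain ⟨l', n'⟩ := l'
        obtain rfl : l = l' := (hP _).unique (h1 (l, n) s).2 (h ▸ (h1 (l', n') s).2)
        obtain rfl : n = n' := (e (φ s) l).injective (Subtype.ext h)
        rfl
  have ch : ∀ s g, Ch (φ s) g → ∃ l, φ (l :: s) = g := by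
    intro s g hg
    obtain ⟨l, hl, -⟩ := hP g
    exact ⟨(l, (e (φ s) l).symm ⟨g, hg, hl⟩), by simp [φ]⟩
  have surj : Function.Surjective φ := by
    intro g
    induction hn : g.norm using Nat.strong_induction_on generalizing g with
    | _ n ih =>
      by_cases hg : g = 1
      · exact ⟨[], hg.symm⟩
      · obtain ⟨s, hs⟩ := ih _ (hn ▸ norm_par hg) (par g) rfl
        obtain ⟨l, hl⟩ := ch s g ⟨hg, hs.symm⟩
        exact ⟨_, hl⟩
  have key : ∀ s t, Ch (φ s) (φ t) ↔ ∃ l, t = l :: s := fun s t =>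
    ⟨fun h => let ⟨l, hl⟩ := ch s _ h; ⟨l, (inj hl).symm⟩, by rintro ⟨l, rfl⟩; exact (h1 l s).1⟩
  exact ⟨Equiv.ofBijective φ ⟨inj, surj⟩, fun s t => by
    simp only [Equiv.ofBijective_apply, ca_iff, key, AdjL], fun l s => (h1 l s).2⟩

/-- the rigid colouring of a forest of trees -/
def kap (r : ℕ → Bool) : List (Unit × ℕ) → Fin 3
  | [] => 2
  | [i] => if r i.2 then 1 else 0
  | j :: i :: _ => if j.2 < i.2 then 1 else 0

theorem kap_two {r : ℕ → Bool} {s : List (Unit × ℕ)} (h : kap r s = 2) : s = [] := by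
  rcases s with _ | ⟨j, _ | ⟨i, t⟩⟩
  · rfl
  · simp only [kap] at h; split_ifs at h <;> simp at h
  · simp only [kap] at h; split_ifs at h <;> simp at h

section rigid

variable {B : Type} {r : B → ℕ → Bool}

def Good (r : B → ℕ → Bool) (Ψ : B × List (Unit × ℕ) ≃ B × List (Unit × ℕ)) : Prop :=
  (∀ p q, (Ψ p).1 = (Ψ q).1 ∧ AdjL (Ψ p).2 (Ψ q).2 ↔ p.1 = q.1 ∧ AdjL p.2 q.2) ∧
    ∀ p, kap (r (Ψ p).1) (Ψ p).2 = kap (r p.1) p.2

theorem Good.symm {Ψ} (h : Good r Ψ) : Good r Ψ.symm :=
  ⟨fun p q => by rw [← h.1]; simp, fun p => by rw [← h.2]; simp⟩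

theorem Good.child {Ψ} (h : Good r Ψ) (b : B) (s : List (Unit × ℕ)) :
    ∀ l, ∃ l', Ψ (b, l :: s) = ((Ψ (b, s)).1, l' :: (Ψ (b, s)).2) := by
  induction s with
  | nil =>
    intro l
    obtain ⟨h1, ⟨l', h2⟩ | ⟨l', h2⟩⟩ := (h.1 (b, []) (b, [l])).2 ⟨rfl, Or.inl ⟨l, rfl⟩⟩
    · exact ⟨l', Prod.ext h1.symm h2⟩
    · rw [kap_two (h.2 (b, []))] at h2; simp at h2
  | cons a t ih =>
    intro l
    obtain ⟨h1, ⟨l', h2⟩ | ⟨l', h2⟩⟩ :=
      (h.1 (b, a :: t) (b, l :: a :: t)).2 ⟨rfl, Or.inl ⟨l, rfl⟩⟩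
    · exact ⟨l', Prod.ext h1.symm h2⟩
    · obtain ⟨a', ha⟩ := ih a
      rw [ha] at h1 h2
      have : Ψ (b, l :: a :: t) = Ψ (b, t) := Prod.ext h1.symm (List.cons.inj h2).2.symm
      have := congrArg (fun p => p.2.length) (Ψ.injective this)
      simp at this; omega

theorem Good.le {Ψ} (h : Good r Ψ) {b b' : B} {i i' : Unit × ℕ} {s s' : List (Unit × ℕ)}
    (e : Ψ (b, i :: s) = (b', i' :: s')) : i.2 ≤ i'.2 := by
  choose f hf using h.child b (i :: s)
  simp only [e] at hf
  have h1 : ∀ j : Fin i.2, (f ((), j)).2 < i'.2 := fun j => by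
    have := h.2 (b, ((), j.val) :: i :: s)
    rw [hf] at this
    simp only [kap, j.2, if_true] at this
    by_contra hc
    simp [hc] at this
  have inj : Function.Injective fun j : Fin i.2 => (⟨(f ((), j)).2, h1 j⟩ : Fin i'.2) := by
    intro j j' e'
    have e2 : f ((), j) = f ((), j') := Prod.ext rfl (by simpa using e')
    have := Ψ.injective ((hf ((), j)).trans (e2 ▸ (hf ((), j')).symm))
    exact Fin.ext (by simpa using this)
  simpa using Fintype.card_le_of_injective _ inj

theorem Good.eq (hr : Function.Injective r) {Ψ} (h : Good r Ψ) (p) : Ψ p = p := by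
  have h1 : ∀ b s, Ψ (b, s) = ((Ψ (b, [])).1, s) := by
    intro b s
    induction s with
    | nil => exact Prod.ext rfl (kap_two (h.2 (b, [])))
    | cons l s ih =>
      obtain ⟨l', e⟩ := h.child b s l
      rw [ih] at e
      have := le_antisymm (h.le e) (h.symm.le (Ψ.symm_apply_eq.2 e.symm))
      rw [e, show l' = l from Prod.ext rfl this.symm]
  obtain ⟨b, s⟩ := p
  rw [h1, show (Ψ (b, [])).1 = b from hr (funext fun i => ?_)]
  have := h.2 (b, [((), i)])
  rw [h1] at this
  simp only [kap] at this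
  revert this
  cases r (Ψ (b, [])).1 i <;> cases r b i <;> simp

end rigid

def act (g : F) (x : F → Bool) : F → Bool := fun h => x (h * g)

theorem act_mul (g g' : F) (x : F → Bool) : act (g * g') x = act g (act g' x) := by
  funext h; simp [act, mul_assoc]

theorem act_one (x : F → Bool) : act 1 x = x := by funext h; simp [act]

theorem act_cont (g : F) : Continuous (act g) := by unfold act; fun_prop

def actH (u : F) : (F → Bool) ≃ₜ (F → Bool) where
  toFun := act u
  invFun := act u⁻¹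
  left_inv x := by rw [← act_mul]; simp [act_one]
  right_inv x := by rw [← act_mul]; simp [act_one]
  continuous_toFun := act_cont u
  continuous_invFun := act_cont _

def Free : Set (F → Bool) := {x | ∀ u, u ≠ 1 → act u x ≠ x}

theorem free_eq : Free = ⋂ u : {u : F // u ≠ 1}, {x | act u.1 x ≠ x} := by
  ext x; simp [Free]

theorem free_meas : MeasurableSet Free := by
  rw [free_eq]
  exact MeasurableSet.iInter fun u => (isOpen_ne_fun (act_cont _) continuous_id).measurableSet

instance : Infinite F := Infinite.of_injective _ (of_injective (α := ℕ))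

theorem free_res : Free ∈ residual (F → Bool) := by
  classical
  rw [free_eq, countable_iInter_mem]
  rintro ⟨u, hu⟩
  refine residual_of_dense_open (isOpen_ne_fun (act_cont _) continuous_id) fun x =>
    mem_closure_iff_nhds.2 fun U hU => ?_
  obtain ⟨J, hJ⟩ := nhds_supp hU
  obtain ⟨w, hw⟩ := Infinite.exists_notMem_finset J
  refine ⟨fun b => if b = w then !x (w * u) else x b,
    hJ _ fun b hb => if_neg (by rintro rfl; exact hw hb), fun e => ?_⟩
  have := congrFun e w
  simp [act, hu] at this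

theorem act_free (u : F) {x : F → Bool} (hx : x ∈ Free) : act u x ∈ Free := by
  intro v hv e
  refine hx (u⁻¹ * v * u) (fun h => hv ?_) ?_
  · rw [mul_assoc, inv_mul_eq_one, eq_comm, mul_eq_right] at h; exact h
  · rw [act_mul, act_mul, e, ← act_mul]; simp [act_one]

instance : MulAction F Free where
  smul u x := ⟨act u x.1, act_free u x.2⟩
  one_smul x := Subtype.ext (act_one _)
  mul_smul u v x := Subtype.ext (act_mul _ _ _)

theorem smul_inj (x : Free) {g g' : F} (h : g • x = g' • x) : g = g' := by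
  by_contra hne
  refine x.2 (g'⁻¹ * g) (fun e => hne (inv_mul_eq_one.1 e).symm) ?_
  have : (g'⁻¹ * g) • x = x := by rw [mul_smul, h, inv_smul_smul]
  exact congrArg Subtype.val this

def Gr : SimpleGraph Free where
  Adj x y := ∃ n : ℕ, y = (of n : F) • x ∨ x = (of n : F) • y
  symm := ⟨fun x y ⟨n, h⟩ => ⟨n, h.symm⟩⟩
  loopless := ⟨fun x ⟨n, h⟩ => by
    have : (1 : F) • x = (of n : F) • x := by simpa using h
    simpa using smul_inj x this⟩

abbrev Orb := MulAction.orbitRel.Quotient F Free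

noncomputable def theta : Orb × F ≃ Free :=
  Equiv.ofBijective (fun p => p.2 • Quotient.out p.1) ⟨by
    rintro ⟨b, g⟩ ⟨b', g'⟩ h
    simp only at h
    obtain rfl : b = b' := by
      rw [← Quotient.out_eq b, ← Quotient.out_eq b']
      exact Quotient.sound ⟨g⁻¹ * g', by simp only [mul_smul, ← h, inv_smul_smul]⟩
    rw [smul_inj _ h], fun x => by
    obtain ⟨g, hg⟩ : (Quotient.out (Quotient.mk (MulAction.orbitRel F Free) x)) ∈
      MulAction.orbit F x :=
      MulAction.orbitRel_apply.1 (Quotient.mk_out (s := MulAction.orbitRel F Free) x)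
    exact ⟨(Quotient.mk _ x, g⁻¹), by simp only at hg ⊢; rw [← hg, inv_smul_smul]⟩⟩

theorem theta_adj (p q : Orb × F) : Gr.Adj (theta p) (theta q) ↔ p.1 = q.1 ∧ CA p.2 q.2 := by
  have e : ∀ (g : F) (p : Orb × F), g • theta p = theta (p.1, g * p.2) := fun g p => by
    simp [theta, mul_smul]
  simp only [Gr, e, theta.injective.eq_iff, Prod.ext_iff, CA]
  constructor
  · rintro ⟨n, h | h⟩
    · exact ⟨h.1.symm, n, Or.inl h.2⟩
    · exact ⟨h.1, n, Or.inr h.2⟩
  · rintro ⟨h, n, h' | h'⟩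
    · exact ⟨n, Or.inl ⟨h.symm, h'⟩⟩
    · exact ⟨n, Or.inr ⟨h, h'⟩⟩

theorem inf_of {g : F} {Q : F → Prop} (h : ∀ m, ∃ n ≥ m, Q (of n * g)) :
    {g' | Ch g g' ∧ Q g'}.Infinite := by
  obtain ⟨m, hm⟩ := ch_eventually g
  have : {n | Ch g (of n * g) ∧ Q (of n * g)}.Infinite :=
    Set.infinite_of_forall_exists_gt fun a => by
      obtain ⟨n, h1, h2⟩ := h (max m (a + 1))
      exact ⟨n, ⟨hm n (by omega), h2⟩, by omega⟩
  exact (this.image (f := fun n => of n * g)
    fun a _ b _ e => of_injective (mul_right_cancel e)).mono (by rintro _ ⟨n, hn, rfl⟩; exact hn)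

theorem finite_dist : ∃ c : Free → Fin 3, ∀ φ : Gr ≃g Gr, (∀ x, c (φ x) = c x) → ∀ x, φ x = x := by
  obtain ⟨φ, hφ, -⟩ := coords (L := Unit) (fun _ _ => True) (fun _ => ⟨(), trivial, by simp⟩)
    fun g _ => inf_of (Q := fun _ => True) fun m => ⟨m, le_rfl, trivial⟩
  obtain ⟨en, hen⟩ := exists_surjective_nat F
  let r : Orb → ℕ → Bool := fun b n => (Quotient.out b).1 (en n)
  have hr : Function.Injective r := fun b b' e => by
    refine Quotient.out_injective (Subtype.ext (funext fun g => ?_))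
    obtain ⟨n, rfl⟩ := hen g
    exact congrFun e n
  let Θ : Orb × List (Unit × ℕ) ≃ Free := ((Equiv.refl _).prodCongr φ).trans theta
  have hΘ : ∀ p q, Gr.Adj (Θ p) (Θ q) ↔ p.1 = q.1 ∧ AdjL p.2 q.2 := fun p q => by
    simp [Θ, theta_adj, hφ]
  refine ⟨fun x => kap (r (Θ.symm x).1) (Θ.symm x).2, fun ψ h x => ?_⟩
  have : Good r ((Θ.trans ψ.toEquiv).trans Θ.symm) :=
    ⟨fun p q => by rw [← hΘ, ← hΘ]; simp [ψ.map_adj_iff], fun p => by simpa using h (Θ p)⟩
  have := this.eq hr (Θ.symm x)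
  simpa using this

theorem not_dist (c : Free → ℕ) (hc : Measurable c) :
    ∃ φ : Gr ≃g Gr, (∀ x, c (φ x) = c x) ∧ ∃ x, φ x ≠ x := by
  classical
  let c' : (F → Bool) → ℕ := fun x => if hx : x ∈ Free then c ⟨x, hx⟩ else 0
  have hc' : Measurable c' := Measurable.dite hc measurable_const free_meas
  obtain ⟨C, hC, hcC⟩ := exists_continuousOn (f := c') (by
    rw [← BorelSpace.measurable_eq (α := F → Bool), ← BorelSpace.measurable_eq (α := ℕ)]
    exact hc')
  let N := {i : ℕ // ∃ x ∈ C, c' x = i}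
  have loc : ∀ i : N, ∃ (x : F → Bool) (J : Finset F), ∀ y ∈ C, (∀ w ∈ J, y w = x w) →
      c' y = i.1 := by
    rintro ⟨_, x, hx, rfl⟩
    have := (hcC x hx).preimage_mem_nhdsWithin ((isOpen_discrete {c' x}).mem_nhds rfl)
    obtain ⟨U, hU, h⟩ := mem_nhdsWithin_iff_exists_mem_nhds_inter.1 this
    obtain ⟨J, hJ⟩ := nhds_supp hU
    exact ⟨x, J, fun y hy h' => h ⟨hJ y h', hy⟩⟩
  choose xs J hJ using loc
  have gen : ∀ (i : N) (m : ℕ), ∀ᶠ y in residual (F → Bool),
      ∃ n ≥ m, ∀ w ∈ J i, act (of n) y w = xs i w := by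
    intro i m
    refine residual_of_dense_open ?_ fun y => mem_closure_iff_nhds.2 fun U hU => ?_
    · have : {y : F → Bool | ∃ n ≥ m, ∀ w ∈ J i, act (of n) y w = xs i w} =
          ⋃ n ∈ {n | n ≥ m}, ⋂ w ∈ J i, (fun y => act (of n) y w) ⁻¹' {xs i w} := by
        ext y; simp
      rw [this]
      exact isOpen_biUnion fun n _ => isOpen_biInter_finset fun w _ =>
        (isOpen_discrete _).preimage ((continuous_apply w).comp (act_cont _))
    · obtain ⟨I, hI⟩ := nhds_supp hU
      have hfin : ((fun n => (of n : F)) ⁻¹'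
          (((J i ×ˢ I).image fun p => p.1⁻¹ * p.2 : Finset F) : Set F)).Finite :=
        (Finset.finite_toSet _).preimage of_injective.injOn
      obtain ⟨n, hn, hmn⟩ := hfin.infinite_compl.exists_gt m
      refine ⟨fun h => if h ∈ I then y h else xs i (h * (of n)⁻¹), hI _ fun h hh => if_pos hh,
        n, hmn.le, fun w hw => ?_⟩
      have : w * of n ∉ I := fun h => hn (by
        simp only [Finset.coe_image, mem_preimage, mem_image]
        exact ⟨(w, w * of n), by simp [hw, h], by simp⟩)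
      simp [act, this]
  have hres : ∀ᶠ y in residual (F → Bool), y ∈ Free ∧ ∀ g, act g y ∈ C ∧
      ∀ (i : N) (m : ℕ), ∃ n ≥ m, ∀ w ∈ J i, act (of n) (act g y) w = xs i w :=
    Filter.Eventually.and free_res (eventually_countable_forall.2 fun g =>
      tendsto_residual_of_isOpenMap (act_cont g) (actH g).isOpenMap
        (Filter.Eventually.and hC (eventually_countable_forall.2 fun i =>
          eventually_countable_forall.2 (gen i))))
  obtain ⟨y, hy, hy'⟩ := (dense_of_mem_residual hres).nonempty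
  obtain ⟨⟨b, g0⟩, e0⟩ := theta.surjective ⟨y, hy⟩
  have e1 : ∀ g, (theta (b, g)).1 = act (g * g0⁻¹) y := fun g => by
    have : theta (b, g) = (g * g0⁻¹) • theta (b, g0) := by simp [theta, mul_smul]
    rw [this, e0]; rfl
  have e2 : ∀ x : Free, c' x.1 = c x := fun x => dif_pos x.2
  obtain ⟨φ, hφ, hφ'⟩ := coords (L := N) (fun g i => c (theta (b, g)) = i.1)
    (fun g => ⟨⟨_, _, (hy' (g * g0⁻¹)).1, rfl⟩, by simp only [← e2, e1], fun i hi =>
      Subtype.ext (by simp only [← e2, e1] at hi; exact hi.symm)⟩)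
    fun g i => inf_of (Q := fun g => c (theta (b, g)) = i.1) fun m => by
      obtain ⟨n, h1, h2⟩ := (hy' (g * g0⁻¹)).2 i m
      refine ⟨n, h1, ?_⟩
      rw [← e2, e1, mul_assoc]
      exact hJ i _ (hy' _).1 (by rw [act_mul]; exact h2)
  let τ : List (N × ℕ) ≃ List (N × ℕ) :=
    Equiv.listEquivOfEquiv ((Equiv.refl N).prodCongr (Equiv.swap 0 1))
  have hτ : ∀ s t, AdjL (τ s) (τ t) ↔ AdjL s t := by
    have : ∀ s t : List (N × ℕ), (∃ l, τ t = l :: τ s) ↔ ∃ l, t = l :: s := fun s t =>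
      ⟨fun ⟨l, h⟩ => ⟨((Equiv.refl N).prodCongr (Equiv.swap 0 1)).symm l, τ.injective (by
        rw [h]; simp [τ, Equiv.listEquivOfEquiv, Prod.map])⟩, by rintro ⟨l, rfl⟩; exact ⟨_, rfl⟩⟩
    intro s t; simp only [AdjL, this]
  let σ : F ≃ F := (φ.symm.trans τ).trans φ
  have hσ : ∀ g g', CA (σ g) (σ g') ↔ CA g g' := fun g g' => by
    simp only [σ, Equiv.trans_apply, hφ, hτ]
    rw [← hφ]; simp
  let Ψ : Orb × F ≃ Orb × F := Equiv.prodCongrRight fun b' => if b' = b then σ else Equiv.refl _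
  refine ⟨⟨(theta.symm.trans Ψ).trans theta, fun {x x'} => ?_⟩, fun x => ?_, ?_⟩
  · obtain ⟨⟨b1, g1⟩, rfl⟩ := theta.surjective x
    obtain ⟨⟨b2, g2⟩, rfl⟩ := theta.surjective x'
    simp only [Equiv.trans_apply, Equiv.symm_apply_apply, theta_adj, Ψ,
      Equiv.prodCongrRight_apply]
    refine and_congr_right ?_
    rintro rfl
    split_ifs
    · exact hσ _ _
    · rfl
  · obtain ⟨⟨b1, g1⟩, rfl⟩ := theta.surjective x
    change c (theta (Ψ (theta.symm (theta (b1, g1))))) = _
    simp only [Equiv.symm_apply_apply, Ψ, Equiv.prodCongrRight_apply]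
    split_ifs with h
    · subst h
      obtain ⟨s, rfl⟩ := φ.surjective g1
      simp only [σ, Equiv.trans_apply, Equiv.symm_apply_apply]
      cases s with
      | nil => rfl
      | cons l s => exact (hφ' _ _).trans (hφ' l s).symm
    · rfl
  · let i : N := ⟨_, _, (hy' 1).1, rfl⟩
    refine ⟨theta (b, φ [(i, 0)]), fun e => ?_⟩
    change theta (Ψ (theta.symm (theta _))) = _ at e
    simpa [Ψ, σ, τ, Equiv.listEquivOfEquiv] using e

theorem main : ∃ (X : Type) (_ : MeasurableSpace X) (_ : StandardBorelSpace X) (G : SimpleGraph X),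
    MeasurableSet {p : X × X | G.Adj p.1 p.2} ∧
    (∃ c : X → Fin 3, ∀ φ : G ≃g G, (∀ x, c (φ x) = c x) → ∀ x, φ x = x) ∧
    ∀ (I : Type) [MeasurableSpace I] [StandardBorelSpace I] [Countable I] (c : X → I),
      Measurable c → ∃ φ : G ≃g G, (∀ x, c (φ x) = c x) ∧ ∃ x, φ x ≠ x := by
  refine ⟨Free, inferInstance, free_meas.standardBorel, Gr, ?_, finite_dist, fun I _ _ _ c hc => ?_⟩
  · have : {p : Free × Free | Gr.Adj p.1 p.2} = ⋃ n : ℕ,
        ({p | p.2.1 = act (of n) p.1.1} ∪ {p | p.1.1 = act (of n) p.2.1}) := by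
      ext p; simp only [Gr, mem_ofPred_eq, mem_iUnion, mem_union, Subtype.ext_iff]; rfl
    rw [this]
    refine MeasurableSet.iUnion fun n => MeasurableSet.union ?_ ?_
    · exact measurableSet_eq_fun (by fun_prop) ((act_cont _).measurable.comp (by fun_prop))
    · exact measurableSet_eq_fun (by fun_prop) ((act_cont _).measurable.comp (by fun_prop))
  · obtain ⟨f, hf⟩ := exists_injective_nat I
    obtain ⟨φ, h1, h2⟩ := not_dist (f ∘ c) ((measurable_of_countable f).comp hc)
    exact ⟨φ, fun x => hf (h1 x), h2⟩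

end Pool.Agent.H38.Dist
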